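import Mathlib

/-!
# `π₁(Δ_X)` is residually finite for every elementary abelian 2-group `X`
-/

set_option autoImplicit false

namespace Pool.Agent.Results.MP_4d6048_al.ResiduallyFinite

/-- The relators `a_i b_j (b_{i+j} a_{i-j})⁻¹` of `π₁(Δ_X)`; `a_i = of (inl i)`,
`b_j = of (inr j)`. -/
def rels (X : Type) [AddCommGroup X] : Set (FreeGroup (X ⊕ X)) :=
  {r | ∃ i j : X, r = FreeGroup.of (Sum.inl i) * FreeGroup.of (Sum.inr j) *
    (FreeGroup.of (Sum.inr (i + j)) * FreeGroup.of (Sum.inl (i - j)))⁻¹}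

/-- The fundamental group `π₁(Δ_X) = ⟨a_i, b_j | a_i b_j = b_{i+j} a_{i-j}⟩`. -/
abbrev Pi1 (X : Type) [AddCommGroup X] : Type := PresentedGroup (rels X)

/-- Residual finiteness. -/
def RF (G : Type) [Group G] : Prop :=
  ∀ g : G, g ≠ 1 → ∃ (Q : Type) (_ : Group Q) (_ : Finite Q) (f : G →* Q), f g ≠ 1

section
variable {X : Type} [AddCommGroup X]

def aa (i : X) : Pi1 X := PresentedGroup.of (Sum.inl i)
def bb (j : X) : Pi1 X := PresentedGroup.of (Sum.inr j)

theorem rel (i j : X) : aa i * bb j = bb (i + j) * aa (i - j) := by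
  have : PresentedGroup.mk (rels X) (FreeGroup.of (Sum.inl i) * FreeGroup.of (Sum.inr j) *
    (FreeGroup.of (Sum.inr (i + j)) * FreeGroup.of (Sum.inl (i - j)))⁻¹) = 1 :=
    PresentedGroup.one_of_mem ⟨i, j, rfl⟩
  rw [map_mul, map_inv, mul_inv_eq_one, map_mul, map_mul] at this
  exact this

/-- homomorphisms out of `Pi1 X` -/
noncomputable def lft {P : Type*} [Group P] (f g : X → P)
    (h : ∀ i j, f i * g j = g (i + j) * f (i - j)) : Pi1 X →* P :=
  PresentedGroup.toGroup (f := Sum.elim f g) (by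
    rintro r ⟨i, j, rfl⟩
    simp only [map_mul, map_inv, FreeGroup.lift_apply_of, Sum.elim_inl, Sum.elim_inr]
    rw [mul_inv_eq_one]; exact h i j)

theorem lft_aa {P : Type*} [Group P] (f g : X → P)
    (h : ∀ i j, f i * g j = g (i + j) * f (i - j)) (i : X) : lft f g h (aa i) = f i :=
  PresentedGroup.toGroup.of _

theorem lft_bb {P : Type*} [Group P] (f g : X → P)
    (h : ∀ i j, f i * g j = g (i + j) * f (i - j)) (i : X) : lft f g h (bb i) = g i :=
  PresentedGroup.toGroup.of _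

theorem hom_ext {P : Type*} [Group P] {f g : Pi1 X →* P} (h1 : ∀ i, f (aa i) = g (aa i))
    (h2 : ∀ i, f (bb i) = g (bb i)) : f = g := by
  apply PresentedGroup.ext
  rintro (i | i)
  · exact h1 i
  · exact h2 i

/-- the generator `a = a_0` -/
def ga : Pi1 X := aa 0
/-- the generator `b = b_0` -/
def gb : Pi1 X := bb 0
/-- the elements `x_i = a⁻¹ a_i` -/
def xx (i : X) : Pi1 X := ga⁻¹ * aa i
/-- the conjugates of the `x_i` under the powers of `a` -/
def cc (n : ℕ) (i : X) : Pi1 X := (ga ^ n)⁻¹ * xx i * ga ^ n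

theorem aa_eq (i : X) : aa i = ga * xx i := by simp [xx]

variable (h2 : ∀ x : X, x + x = 0)

theorem ga_gb : (ga : Pi1 X) * gb = gb * ga := by
  have := rel (0 : X) 0
  rw [add_zero, sub_zero] at this
  exact this

include h2

theorem rel' (i j : X) : aa i * bb j = bb (i + j) * aa (i + j) := by
  have : i - j = i + j := by
    rw [sub_eq_add_neg, neg_eq_of_add_eq_zero_left (h2 j)]
  rw [rel, this]

theorem bb_eq (i : X) : bb i = xx i * gb := by
  have r1 := rel' h2 0 i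
  have r2 := rel' h2 i 0
  rw [zero_add] at r1
  rw [add_zero] at r2
  have : ga * bb i = aa i * gb := by
    show aa 0 * bb i = aa i * bb 0
    rw [r1, r2]
  rw [xx, mul_assoc, ← this, inv_mul_cancel_left]

theorem xx_add (i j : X) : xx (i + j) = xx i * xx j := by
  have r1 := rel' h2 i j
  have r2 := rel' h2 0 (i + j)
  rw [zero_add, ← r1, bb_eq h2, bb_eq h2 j, aa_eq i] at r2
  have e : (aa 0 : Pi1 X) = ga := rfl
  rw [e, mul_assoc] at r2
  have := mul_left_cancel r2
  rw [← mul_assoc] at this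
  exact mul_right_cancel this

theorem xx_zero : (xx 0 : Pi1 X) = 1 := by
  have := xx_add h2 (0 : X) 0
  rw [add_zero] at this
  exact left_eq_mul.1 this

theorem xx_sq (i : X) : xx i * xx i = 1 := by rw [← xx_add h2, h2, xx_zero h2]

theorem xx_inv (i : X) : (xx i)⁻¹ = xx i := inv_eq_of_mul_eq_one_left (xx_sq h2 i)

theorem xx_comm (i j : X) : Commute (xx i) (xx j) := by
  show xx i * xx j = xx j * xx i
  rw [← xx_add h2, ← xx_add h2, add_comm]

omit h2 in
theorem cc_zero (i : X) : cc 0 i = xx i := by simp [cc]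

omit h2 in
theorem cc_succ (n : ℕ) (i : X) : cc (n + 1) i = ga⁻¹ * cc n i * ga := by
  simp only [cc, pow_succ]; group

theorem cc_add (n : ℕ) (i j : X) : cc n (i + j) = cc n i * cc n j := by
  simp only [cc, xx_add h2]; group

theorem cc_nil (n : ℕ) : (cc n 0 : Pi1 X) = 1 := by simp [cc, xx_zero h2]

theorem b_xx (i : X) : gb * xx i * gb⁻¹ = cc 1 i * xx i := by
  have r2 := rel' h2 i 0
  rw [add_zero, bb_eq h2 i, aa_eq i] at r2
  have e : (bb 0 : Pi1 X) = gb := rfl
  rw [e] at r2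
  -- r2 : ga * xx i * gb = xx i * gb * (ga * xx i)
  have h3 : gb * xx i = ga⁻¹ * (xx i)⁻¹ * (ga * xx i * gb) := by
    rw [r2, mul_assoc (xx i), ← mul_assoc gb ga, ← ga_gb]
    group
  rw [h3, xx_inv h2, cc, pow_one]
  group

omit h2 in
theorem b_pow (n : ℕ) : (gb : Pi1 X) * ga ^ n = ga ^ n * gb :=
  ((show Commute (gb : Pi1 X) ga from ga_gb.symm).pow_right n)

theorem b_cc (n : ℕ) (i : X) : gb * cc n i * gb⁻¹ = cc (n + 1) i * cc n i := by
  have e1 : (gb : Pi1 X) * (ga ^ n)⁻¹ = (ga ^ n)⁻¹ * gb :=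
    ((show Commute (gb : Pi1 X) ga from ga_gb.symm).pow_right n).inv_right
  have e2 : (ga : Pi1 X) ^ n * gb⁻¹ = gb⁻¹ * ga ^ n :=
    ((show Commute (gb : Pi1 X) ga from ga_gb.symm).pow_right n).symm.inv_right
  calc gb * cc n i * gb⁻¹ = (gb * (ga ^ n)⁻¹) * xx i * (ga ^ n * gb⁻¹) := by rw [cc]; group
    _ = (ga ^ n)⁻¹ * (gb * xx i * gb⁻¹) * ga ^ n := by rw [e1, e2]; group
    _ = cc (n + 1) i * cc n i := by
      rw [b_xx h2, cc, cc, cc, pow_one, pow_succ']; group

theorem cc_one_comm (i j : X) : Commute (cc 1 j) (xx i) := by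
  have e : gb * xx (i + j) * gb⁻¹ = (gb * xx i * gb⁻¹) * (gb * xx j * gb⁻¹) := by
    rw [xx_add h2]; group
  rw [b_xx h2, b_xx h2, b_xx h2, cc_add h2, xx_add h2] at e
  have e2 : cc 1 j * xx i * xx j = xx i * cc 1 j * xx j := by
    have : cc 1 i * (cc 1 j * xx i * xx j) = cc 1 i * (xx i * cc 1 j * xx j) := by
      calc _ = cc 1 i * cc 1 j * (xx i * xx j) := by group
        _ = _ := by rw [e]; group
    exact mul_left_cancel this
  exact mul_right_cancel e2

theorem cc_xx_comm (n : ℕ) : ∀ i j : X, Commute (cc n i) (xx j) := by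
  induction n using Nat.strong_induction_on with
  | _ n ih =>
    intro i j
    match n, ih with
    | 0, _ => rw [cc_zero]; exact xx_comm h2 i j
    | 1, _ => exact cc_one_comm h2 j i
    | n + 2, ih =>
      have vq : Commute (cc (n + 1) i) (xx j) := ih (n + 1) (by omega) i j
      have shift : ∀ m, m < n + 2 → ∀ i j : X, Commute (cc (m + 1) i) (cc 1 j) := by
        intro m hm i j
        have := ih m hm i j
        rw [cc_succ, cc_succ, cc_zero]
        show ga⁻¹ * cc m i * ga * (ga⁻¹ * xx j * ga) = ga⁻¹ * xx j * ga * (ga⁻¹ * cc m i * ga)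
        calc _ = ga⁻¹ * (cc m i * xx j) * ga := by group
          _ = ga⁻¹ * (xx j * cc m i) * ga := by rw [this.eq]
          _ = _ := by group
      have vp : Commute (cc (n + 1) i) (cc 1 j) := shift n (by omega) i j
      have up : Commute (cc (n + 2) i) (cc 1 j) := shift (n + 1) (by omega) i j
      have h3 : (gb * cc (n + 1) i * gb⁻¹) * (gb * xx j * gb⁻¹) =
          (gb * xx j * gb⁻¹) * (gb * cc (n + 1) i * gb⁻¹) := by
        calc _ = gb * (cc (n + 1) i * xx j) * gb⁻¹ := by group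
          _ = gb * (xx j * cc (n + 1) i) * gb⁻¹ := by rw [vq.eq]
          _ = _ := by group
      rw [b_cc h2, b_xx h2] at h3
      have h4 : cc 1 j * (cc (n + 2) i * xx j) * cc (n + 1) i =
          cc 1 j * (xx j * cc (n + 2) i) * cc (n + 1) i := by
        calc _ = (cc 1 j * cc (n + 2) i) * (xx j * cc (n + 1) i) := by group
          _ = (cc (n + 2) i * cc 1 j) * (cc (n + 1) i * xx j) := by rw [up.eq, vq.eq]
          _ = cc (n + 2) i * (cc 1 j * cc (n + 1) i) * xx j := by group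
          _ = cc (n + 2) i * (cc (n + 1) i * cc 1 j) * xx j := by rw [vp.eq]
          _ = cc (n + 1 + 1) i * cc (n + 1) i * (cc 1 j * xx j) := by group
          _ = cc 1 j * xx j * (cc (n + 1 + 1) i * cc (n + 1) i) := h3
          _ = _ := by group
      exact mul_left_cancel (mul_right_cancel h4)

theorem cc_comm (m n : ℕ) (i j : X) : Commute (cc m i) (cc n j) := by
  have key : ∀ (m k : ℕ) (i j : X), Commute (cc m i) (cc (m + k) j) := by
    intro m
    induction m with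
    | zero =>
      intro k i j
      rw [cc_zero, Nat.zero_add]
      exact (cc_xx_comm h2 k j i).symm
    | succ m ih =>
      intro k i j
      have := ih k i j
      rw [Nat.add_right_comm, cc_succ, cc_succ]
      show ga⁻¹ * cc m i * ga * (ga⁻¹ * cc (m + k) j * ga) =
        ga⁻¹ * cc (m + k) j * ga * (ga⁻¹ * cc m i * ga)
      calc _ = ga⁻¹ * (cc m i * cc (m + k) j) * ga := by group
        _ = ga⁻¹ * (cc (m + k) j * cc m i) * ga := by rw [this.eq]
        _ = _ := by group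
  rcases le_total m n with h | h
  · obtain ⟨k, rfl⟩ := Nat.exists_eq_add_of_le h
    exact key m k i j
  · obtain ⟨k, rfl⟩ := Nat.exists_eq_add_of_le h
    exact (key n k j i).symm

omit h2 in
/-- the product `∏_{k < n} cc k (f k)` -/
def PP (f : ℕ → X) : ℕ → Pi1 X
  | 0 => 1
  | n + 1 => PP f n * cc n (f n)

theorem PP_comm (f : ℕ → X) (n m : ℕ) (j : X) : Commute (PP f n) (cc m j) := by
  induction n with
  | zero => exact Commute.one_left _
  | succ n ih => exact ih.mul_left (cc_comm h2 _ _ _ _)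

theorem PP_mul (f g : ℕ → X) (n : ℕ) : PP f n * PP g n = PP (f + g) n := by
  induction n with
  | zero => exact one_mul 1
  | succ n ih =>
    show PP f n * cc n (f n) * (PP g n * cc n (g n)) = PP (f + g) n * cc n (f n + g n)
    rw [← ih, cc_add h2]
    have := (PP_comm h2 g n n (f n)).eq
    calc _ = PP f n * (cc n (f n) * PP g n) * cc n (g n) := by group
      _ = _ := by rw [← this]; group

theorem PP_of_zero (f : ℕ → X) (n : ℕ) (h : ∀ k < n, f k = 0) : PP f n = 1 := by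
  induction n with
  | zero => rfl
  | succ n ih =>
    show PP f n * cc n (f n) = 1
    rw [ih (fun k hk => h k (by omega)), h n (by omega), cc_nil h2, one_mul]

omit h2 in
theorem PP_congr (f g : ℕ → X) (n : ℕ) (h : ∀ k < n, f k = g k) : PP f n = PP g n := by
  induction n with
  | zero => rfl
  | succ n ih =>
    show PP f n * cc n (f n) = PP g n * cc n (g n)
    rw [ih (fun k hk => h k (by omega)), h n (by omega)]

theorem PP_ext (f : ℕ → X) (n m : ℕ) :
    PP f n = PP (fun k => if k < n then f k else 0) (n + m) := by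
  induction m with
  | zero =>
    apply PP_congr
    intro k hk
    rw [if_pos hk]
  | succ m ih =>
    show PP f n = PP _ (n + m) * cc (n + m) (if n + m < n then f (n + m) else 0)
    rw [← ih, if_neg (by omega), cc_nil h2, mul_one]

/-- the subgroup generated by the `cc n i`, `n ≥ 0` -/
def AA : Subgroup (Pi1 X) where
  carrier := {g | ∃ f n, g = PP f n}
  one_mem' := ⟨0, 0, rfl⟩
  mul_mem' := by
    rintro _ _ ⟨f, n, rfl⟩ ⟨g, m, rfl⟩
    refine ⟨(fun k => if k < n then f k else 0) + (fun k => if k < m then g k else 0), n + m, ?_⟩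
    rw [← PP_mul h2, ← PP_ext h2 f n m]
    congr 1
    rw [add_comm n m]
    exact PP_ext h2 g m n
  inv_mem' := by
    rintro _ ⟨f, n, rfl⟩
    refine ⟨f, n, inv_eq_of_mul_eq_one_left ?_⟩
    rw [PP_mul h2]
    exact PP_of_zero h2 _ _ (fun k _ => h2 (f k))

theorem cc_mem (n : ℕ) (i : X) : cc n i ∈ AA h2 := by
  refine ⟨fun k => if k = n then i else 0, n + 1, ?_⟩
  show cc n i = PP _ n * cc n (if n = n then i else 0)
  rw [PP_of_zero h2 _ n (fun k hk => if_neg (by omega)), if_pos rfl, one_mul]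

theorem AA_a {m : Pi1 X} (hm : m ∈ AA h2) : ga⁻¹ * m * ga ∈ AA h2 := by
  obtain ⟨f, n, rfl⟩ := hm
  induction n with
  | zero => show ga⁻¹ * 1 * ga ∈ AA h2; rw [mul_one, inv_mul_cancel]; exact one_mem _
  | succ n ih =>
    have e : ga⁻¹ * PP f (n + 1) * ga = (ga⁻¹ * PP f n * ga) * (ga⁻¹ * cc n (f n) * ga) := by
      show ga⁻¹ * (PP f n * cc n (f n)) * ga = _
      group
    rw [e, ← cc_succ]
    exact mul_mem ih (cc_mem h2 _ _)

theorem AA_b {m : Pi1 X} (hm : m ∈ AA h2) : gb * m * gb⁻¹ ∈ AA h2 := by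
  obtain ⟨f, n, rfl⟩ := hm
  induction n with
  | zero => show gb * 1 * gb⁻¹ ∈ AA h2; rw [mul_one, mul_inv_cancel]; exact one_mem _
  | succ n ih =>
    have e : gb * PP f (n + 1) * gb⁻¹ = (gb * PP f n * gb⁻¹) * (gb * cc n (f n) * gb⁻¹) := by
      show gb * (PP f n * cc n (f n)) * gb⁻¹ = _
      group
    rw [e, b_cc h2]
    exact mul_mem ih (mul_mem (cc_mem h2 _ _) (cc_mem h2 _ _))

omit h2 in
/-- `w = a⁻¹ b` -/
def ww : Pi1 X := ga⁻¹ * gb

omit h2 in
theorem ww_a : Commute (ww : Pi1 X) ga :=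
  (Commute.inv_left (Commute.refl ga)).mul_left ga_gb.symm

omit h2 in
theorem ww_b : Commute (ww : Pi1 X) gb :=
  (show Commute (ga : Pi1 X) gb from ga_gb).inv_left.mul_left (Commute.refl gb)

theorem AA_w {m : Pi1 X} (hm : m ∈ AA h2) : ww * m * ww⁻¹ ∈ AA h2 := by
  have e : ww * m * ww⁻¹ = ga⁻¹ * (gb * m * gb⁻¹) * ga := by rw [ww]; group
  rw [e]; exact AA_a h2 (AA_b h2 hm)

theorem AA_wn {m : Pi1 X} (hm : m ∈ AA h2) (n : ℕ) : ww ^ n * m * (ww ^ n)⁻¹ ∈ AA h2 := by
  induction n with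
  | zero => simpa using hm
  | succ n ih =>
    have e : ww ^ (n + 1) * m * (ww ^ (n + 1))⁻¹ = ww * (ww ^ n * m * (ww ^ n)⁻¹) * ww⁻¹ := by
      rw [pow_succ']; group
    rw [e]; exact AA_w h2 ih

theorem AA_up {m : Pi1 X} {n : ℕ} (hm : ww ^ n * m * (ww ^ n)⁻¹ ∈ AA h2) (k : ℕ) :
    ww ^ (n + k) * m * (ww ^ (n + k))⁻¹ ∈ AA h2 := by
  have e : ww ^ (n + k) * m * (ww ^ (n + k))⁻¹ = ww ^ k * (ww ^ n * m * (ww ^ n)⁻¹) * (ww ^ k)⁻¹ := by
    rw [add_comm, pow_add]; group
  rw [e]; exact AA_wn h2 hm k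

/-- the union of the conjugates of `AA` -/
def NN : Subgroup (Pi1 X) where
  carrier := {m | ∃ n : ℕ, ww ^ n * m * (ww ^ n)⁻¹ ∈ AA h2}
  one_mem' := ⟨0, by simpa using one_mem _⟩
  mul_mem' := by
    rintro x y ⟨n, hn⟩ ⟨m, hm⟩
    refine ⟨n + m, ?_⟩
    have e : ww ^ (n + m) * (x * y) * (ww ^ (n + m))⁻¹ = (ww ^ (n + m) * x * (ww ^ (n + m))⁻¹) *
        (ww ^ (n + m) * y * (ww ^ (n + m))⁻¹) := by group
    rw [e]
    apply mul_mem (AA_up h2 hn m)
    rw [add_comm]; exact AA_up h2 hm n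
  inv_mem' := by
    rintro x ⟨n, hn⟩
    refine ⟨n, ?_⟩
    have e : ww ^ n * x⁻¹ * (ww ^ n)⁻¹ = (ww ^ n * x * (ww ^ n)⁻¹)⁻¹ := by group
    rw [e]; exact inv_mem hn

theorem NN_a {m : Pi1 X} (hm : m ∈ NN h2) : ga⁻¹ * m * ga ∈ NN h2 := by
  obtain ⟨n, hn⟩ := hm
  refine ⟨n, ?_⟩
  have c1 : ww ^ n * ga⁻¹ = (ga⁻¹ * ww ^ n : Pi1 X) := (ww_a.pow_left n).inv_right
  have c2 : ga * (ww ^ n)⁻¹ = ((ww ^ n)⁻¹ * ga : Pi1 X) := (ww_a.pow_left n).symm.inv_right
  have e : ww ^ n * (ga⁻¹ * m * ga) * (ww ^ n)⁻¹ = ga⁻¹ * (ww ^ n * m * (ww ^ n)⁻¹) * ga := by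
    calc _ = (ww ^ n * ga⁻¹) * m * (ga * (ww ^ n)⁻¹) := by group
      _ = _ := by rw [c1, c2]; group
  rw [e]; exact AA_a h2 hn

theorem NN_b {m : Pi1 X} (hm : m ∈ NN h2) : gb * m * gb⁻¹ ∈ NN h2 := by
  obtain ⟨n, hn⟩ := hm
  refine ⟨n, ?_⟩
  have c1 : ww ^ n * gb = (gb * ww ^ n : Pi1 X) := ww_b.pow_left n
  have c2 : gb⁻¹ * (ww ^ n)⁻¹ = ((ww ^ n)⁻¹ * gb⁻¹ : Pi1 X) :=
    ((ww_b.pow_left n).symm.inv_right).inv_left
  have e : ww ^ n * (gb * m * gb⁻¹) * (ww ^ n)⁻¹ = gb * (ww ^ n * m * (ww ^ n)⁻¹) * gb⁻¹ := by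
    calc _ = (ww ^ n * gb) * m * (gb⁻¹ * (ww ^ n)⁻¹) := by group
      _ = _ := by rw [c1, c2]; group
  rw [e]; exact AA_b h2 hn

theorem NN_w {m : Pi1 X} (hm : m ∈ NN h2) : ww⁻¹ * m * ww ∈ NN h2 := by
  obtain ⟨n, hn⟩ := hm
  refine ⟨n + 1, ?_⟩
  have e : ww ^ (n + 1) * (ww⁻¹ * m * ww) * (ww ^ (n + 1))⁻¹ = ww ^ n * m * (ww ^ n)⁻¹ := by
    rw [pow_succ]; group
  rw [e]; exact hn

theorem NN_a' {m : Pi1 X} (hm : m ∈ NN h2) : ga * m * ga⁻¹ ∈ NN h2 := by
  have := NN_w h2 (NN_b h2 hm)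
  have e : (ww⁻¹ * (gb * m * gb⁻¹) * ww : Pi1 X) = ga * m * ga⁻¹ := by
    have c : (ww : Pi1 X) = gb * ga⁻¹ := (show Commute (ga : Pi1 X) gb from ga_gb).inv_left
    rw [c]; group
  rwa [e] at this

theorem NN_b' {m : Pi1 X} (hm : m ∈ NN h2) : gb⁻¹ * m * gb ∈ NN h2 := by
  have := NN_w h2 (NN_a h2 hm)
  have e : (ww⁻¹ * (ga⁻¹ * m * ga) * ww : Pi1 X) = gb⁻¹ * m * gb := by rw [ww]; group
  rwa [e] at this

theorem xx_mem (i : X) : xx i ∈ NN h2 := ⟨0, by simpa [cc_zero] using cc_mem h2 0 i⟩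

/-- the normalizer-like subgroup -/
def MM : Subgroup (Pi1 X) where
  carrier := {g | ∀ m ∈ NN h2, g * m * g⁻¹ ∈ NN h2 ∧ g⁻¹ * m * g ∈ NN h2}
  one_mem' := by intro m hm; simpa using hm
  mul_mem' := by
    intro x y hx hy m hm
    constructor
    · have := (hx _ (hy m hm).1).1
      have e : x * (y * m * y⁻¹) * x⁻¹ = x * y * m * (x * y)⁻¹ := by group
      rwa [e] at this
    · have := (hy _ (hx m hm).2).2
      have e : y⁻¹ * (x⁻¹ * m * x) * y = (x * y)⁻¹ * m * (x * y) := by group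
      rwa [e] at this
  inv_mem' := by
    intro x hx m hm
    rw [inv_inv]
    exact ⟨(hx m hm).2, (hx m hm).1⟩

theorem MM_top : MM h2 = ⊤ := by
  have ha : (ga : Pi1 X) ∈ MM h2 := fun m hm => ⟨NN_a' h2 hm, NN_a h2 hm⟩
  have hb : (gb : Pi1 X) ∈ MM h2 := fun m hm => ⟨NN_b h2 hm, NN_b' h2 hm⟩
  have hx : ∀ i : X, xx i ∈ MM h2 := fun i m hm =>
    ⟨mul_mem (mul_mem (xx_mem h2 i) hm) (inv_mem (xx_mem h2 i)),
      mul_mem (mul_mem (inv_mem (xx_mem h2 i)) hm) (xx_mem h2 i)⟩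
  rw [eq_top_iff, ← PresentedGroup.closure_range_of, Subgroup.closure_le]
  rintro _ ⟨(i | i), rfl⟩
  · show aa i ∈ MM h2
    rw [aa_eq]; exact mul_mem ha (hx i)
  · show bb i ∈ MM h2
    rw [bb_eq h2]; exact mul_mem (hx i) hb

theorem NN_normal : (NN h2).Normal := ⟨fun m hm g => by
  have : g ∈ MM h2 := by rw [MM_top]; exact Subgroup.mem_top _
  exact (this m hm).1⟩

omit h2 in
/-- exponent sums -/
noncomputable def es : Pi1 X →* Multiplicative ℤ × Multiplicative ℤ :=
  lft (fun _ => (Multiplicative.ofAdd 1, 1)) (fun _ => (1, Multiplicative.ofAdd 1)) (by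
    intro i j; rfl)

theorem mem_NN {g : Pi1 X} (hg : es g = 1) : g ∈ NN h2 := by
  have hN := NN_normal h2
  let q : Pi1 X →* Pi1 X ⧸ NN h2 := QuotientGroup.mk' (NN h2)
  have hc : Commute (q ga) (q gb) := (show Commute (ga : Pi1 X) gb from ga_gb).map q
  let σ : Multiplicative ℤ × Multiplicative ℤ →* Pi1 X ⧸ NN h2 :=
    MonoidHom.noncommCoprod (zpowersHom _ (q ga)) (zpowersHom _ (q gb)) (by
      intro m n
      rw [zpowersHom_apply, zpowersHom_apply]
      exact Commute.zpow_zpow hc _ _)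
  have hx : ∀ i, q (xx i) = 1 := fun i => (QuotientGroup.eq_one_iff _).2 (xx_mem h2 i)
  have key : σ.comp es = q := by
    apply hom_ext
    · intro i
      rw [MonoidHom.comp_apply, es, lft_aa, aa_eq, map_mul, hx, mul_one]
      simp [σ, MonoidHom.noncommCoprod_apply]
    · intro i
      rw [MonoidHom.comp_apply, es, lft_bb, bb_eq h2, map_mul, hx, one_mul]
      simp [σ, MonoidHom.noncommCoprod_apply]
  have := DFunLike.congr_fun key g
  rw [MonoidHom.comp_apply, hg, map_one] at this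
  exact (QuotientGroup.eq_one_iff _).1 this.symm

/-! ### affine representations -/

omit h2

section aff
variable {K : Type} [Field K] [CharP K 2] (l : X →+ K) {τ : K} (h0 : τ ≠ 0) (h1 : 1 + τ ≠ 0)

/-- the representation on `Perm K` -/
noncomputable def theta : Pi1 X →* Equiv.Perm K :=
  lft (fun i => (Equiv.mulLeft₀ τ h0)⁻¹ * Equiv.addRight (l i))
    (fun i => Equiv.addRight (l i) * Equiv.mulLeft₀ (1 + τ) h1) (by
    intro i j
    have hm : ∀ y, (Equiv.mulLeft₀ τ h0)⁻¹ y = τ⁻¹ * y := fun y => rfl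
    have hm' : ∀ y, (Equiv.mulLeft₀ (1 + τ) h1) y = (1 + τ) * y := fun y => rfl
    ext y
    simp only [Equiv.Perm.mul_apply, Equiv.coe_addRight, hm, hm', map_add, map_sub]
    have e : l i - l j = l i + l j := by rw [CharTwo.sub_eq_add]
    have t1 : τ⁻¹ * τ = 1 := inv_mul_cancel₀ h0
    have two : (2 : K) = 0 := CharTwo.two_eq_zero
    rw [e]
    linear_combination (-(l i + l j)) * t1 - (l i + l j) * two)

theorem theta_aa (i : X) (y : K) : theta l h0 h1 (aa i) y = τ⁻¹ * (y + l i) := by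
  rw [theta, lft_aa]; rfl

theorem theta_ga (y : K) : theta l h0 h1 ga y = τ⁻¹ * y := by
  rw [ga, theta_aa, map_zero, add_zero]

theorem theta_ga_inv (y : K) : theta l h0 h1 ga⁻¹ y = τ * y := by
  rw [map_inv, Equiv.Perm.inv_eq_iff_eq, theta_ga, inv_mul_cancel_left₀ h0]

theorem theta_cc (n : ℕ) (i : X) (y : K) : theta l h0 h1 (cc n i) y = y + τ ^ n * l i := by
  induction n generalizing y with
  | zero =>
    rw [cc_zero, xx, map_mul, Equiv.Perm.mul_apply, theta_ga_inv, theta_aa, pow_zero, one_mul,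
      mul_inv_cancel_left₀ h0]
  | succ n ih =>
    rw [cc_succ, map_mul, map_mul, Equiv.Perm.mul_apply, Equiv.Perm.mul_apply, theta_ga_inv, ih,
      theta_ga, mul_add, mul_inv_cancel_left₀ h0, pow_succ]
    ring

theorem theta_PP (f : ℕ → X) (n : ℕ) (y : K) : theta l h0 h1 (PP f n) y =
    y + ∑ k ∈ Finset.range n, τ ^ k * l (f k) := by
  induction n generalizing y with
  | zero => show theta l h0 h1 1 y = _; simp
  | succ n ih =>
    show theta l h0 h1 (PP f n * cc n (f n)) y = _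
    rw [map_mul, Equiv.Perm.mul_apply, theta_cc, ih, Finset.sum_range_succ]
    ring

end aff

include h2

theorem detect (f : ℕ → X) (n : ℕ) (k0 : ℕ) (hk : k0 < n) (hf : f k0 ≠ 0) :
    ∃ (Q : Type) (_ : Group Q) (_ : Finite Q) (φ : Pi1 X →* Q), φ (PP f n) ≠ 1 := by
  classical
  letI : Module (ZMod 2) X := AddCommGroup.zmodModule (n := 2) (fun x => by rw [two_nsmul, h2])
  obtain ⟨l0, hl0⟩ : ∃ φ : Module.Dual (ZMod 2) X, φ (f k0) ≠ 0 :=
    Module.Projective.exists_dual_ne_zero (ZMod 2) hf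
  let p : Polynomial (ZMod 2) := ∑ k ∈ Finset.range n, Polynomial.monomial k (l0 (f k))
  have hp : p ≠ 0 := by
    intro h
    have h3 : p.coeff k0 = 0 := by rw [h, Polynomial.coeff_zero]
    simp only [p, Polynomial.finsetSum_coeff, Polynomial.coeff_monomial] at h3
    rw [Finset.sum_ite_eq_of_mem' _ _ _ (Finset.mem_range.2 hk)] at h3
    exact hl0 h3
  have h1X : (1 + Polynomial.X : Polynomial (ZMod 2)) ≠ 0 := by
    intro h
    have h3 := congrArg (fun q => Polynomial.coeff q 1) h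
    simp [Polynomial.coeff_one, Polynomial.coeff_X] at h3
  let q : Polynomial (ZMod 2) := p * Polynomial.X * (1 + Polynomial.X)
  have hq : q ≠ 0 := mul_ne_zero (mul_ne_zero hp Polynomial.X_ne_zero) h1X
  let d := q.natDegree + 1
  let K := GaloisField 2 d
  have hcard : Nat.card K = 2 ^ d := GaloisField.card 2 d (by omega)
  have hqK : q.map (algebraMap (ZMod 2) K) ≠ 0 := by
    rwa [Polynomial.map_ne_zero_iff (algebraMap (ZMod 2) K).injective]
  obtain ⟨τ, hτ⟩ := Polynomial.exists_eval_ne_zero_of_natDegree_lt_card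
    (q.map (algebraMap (ZMod 2) K)) hqK (by
      rw [Polynomial.natDegree_map, ← Nat.cast_card, hcard]
      have : q.natDegree < 2 ^ d := lt_trans (Nat.lt_succ_self _) Nat.lt_two_pow_self
      exact_mod_cast this)
  simp only [q, Polynomial.map_mul, Polynomial.map_add, Polynomial.map_X, Polynomial.map_one,
    Polynomial.eval_mul, Polynomial.eval_X, Polynomial.eval_add, Polynomial.eval_one] at hτ
  have hτ1 : 1 + τ ≠ 0 := right_ne_zero_of_mul hτ
  have hτ0 : τ ≠ 0 := right_ne_zero_of_mul (left_ne_zero_of_mul hτ)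
  have hτp : (p.map (algebraMap (ZMod 2) K)).eval τ ≠ 0 := left_ne_zero_of_mul (left_ne_zero_of_mul hτ)
  let l : X →+ K := (algebraMap (ZMod 2) K).toAddMonoidHom.comp l0.toAddMonoidHom
  refine ⟨Equiv.Perm K, inferInstance, inferInstance, theta l hτ0 hτ1, fun h => ?_⟩
  have h3 := theta_PP l hτ0 hτ1 f n 0
  rw [h, Equiv.Perm.one_apply, zero_add] at h3
  apply hτp
  simp only [p, Polynomial.map_sum, Polynomial.map_monomial, Polynomial.eval_finsetSum,
    Polynomial.eval_monomial]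
  rw [h3]
  apply Finset.sum_congr rfl
  intro k _
  rw [mul_comm]
  rfl

theorem main : RF (Pi1 X) := by
  intro g hg
  by_cases hes : es g = 1
  · obtain ⟨n, f, N, hf⟩ := mem_NN h2 hes
    by_cases hz : ∀ k < N, f k = 0
    · exfalso
      rw [PP_of_zero h2 f N hz, mul_inv_eq_one, mul_eq_left] at hf
      exact hg hf
    · push Not at hz
      obtain ⟨k, hk, hk'⟩ := hz
      obtain ⟨Q, _, _, φ, hφ⟩ := detect h2 f N k hk hk'
      refine ⟨Q, inferInstance, inferInstance, φ, fun h => hφ ?_⟩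
      rw [← hf, map_mul, map_mul, h, mul_one, map_inv, mul_inv_cancel]
  · -- exponent sums
    have fin : ∀ z : ℤ, z ≠ 0 → ∃ m : ℕ, 0 < m ∧ (z : ZMod m) ≠ 0 := by
      intro z hz
      refine ⟨z.natAbs + 1, by omega, fun h => ?_⟩
      rw [ZMod.intCast_zmod_eq_zero_iff_dvd] at h
      have := Int.eq_zero_of_abs_lt_dvd h (by push_cast; omega)
      exact hz this
    have key : ∀ (e : Pi1 X →* Multiplicative ℤ), e g ≠ 1 →
        ∃ (Q : Type) (_ : Group Q) (_ : Finite Q) (f : Pi1 X →* Q), f g ≠ 1 := by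
      intro e he
      obtain ⟨m, hm, hm'⟩ := fin (Multiplicative.toAdd (e g)) he
      haveI : NeZero m := ⟨hm.ne'⟩
      refine ⟨Multiplicative (ZMod m), inferInstance, inferInstance,
        (AddMonoidHom.toMultiplicative (Int.castAddHom (ZMod m))).comp e, fun h => hm' ?_⟩
      exact h
    by_cases h1 : (es g).1 = 1
    · have h3 : (es g).2 ≠ 1 := fun h => hes (Prod.ext h1 h)
      exact key ((MonoidHom.snd _ _).comp es) h3
    · exact key ((MonoidHom.fst _ _).comp es) h1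

end

/-- **`π₁(Δ_X)` is residually finite for every abelian group `X` of exponent 2.**  In particular
(`X = Z/2 × Z/2`, of order `4 > 2`) it is not true that `π₁(Δ_X)` is never residually finite for
finite abelian `X` with `|X| > 2`. -/
theorem result :
    (∀ (X : Type) [AddCommGroup X], (∀ x : X, x + x = 0) → RF (Pi1 X)) ∧
    ∃ (X : Type) (_ : AddCommGroup X), Finite X ∧ 2 < Nat.card X ∧ RF (Pi1 X) := by
  refine ⟨fun X _ h => main h, ZMod 2 × ZMod 2, inferInstance, inferInstance, ?_, main (by decide)⟩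
  rw [Nat.card_eq_fintype_card]
  decide

end Pool.Agent.Results.MP_4d6048_al.ResiduallyFinite
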